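import Pool.Agent.KS6_3.RX.Ext
import Pool.Agent.KS6_3.RW.Helper156.RWF.J13583
import Pool.Agent.KS6_3.RW.Helper156.RWF.J14315
import Pool.Agent.KS6_3.RW.Helper156.RWF.J13547
import Pool.Agent.KS6_3.RW.Helper156.RWF.J14313
import Pool.Agent.KS6_3.RW.Helper156.RWF.J14314
import Pool.Agent.KS6_3.RW.Helper156.RWF.J14436

/-!
# Purity for random Weil groups

Let `F` be a free pro-`p` group of finite rank.  For almost every continuous automorphism `φ` of
`F`, with respect to the Haar measure, the Weil group `W = F ⋊ ⟨φ⟩` has the following property,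
which holds for the arithmetic Weil groups by the theorems of Lafforgue and Deligne: if `ρ` and `σ`
are continuous irreducible representations of `W` over a finite extension `L` of `ℚ_p` which have
the same weight, that is `det ρ(φ)^(1/dim ρ)` and `det σ(φ)^(1/dim σ)` agree up to roots of unity,
then `H¹(F; ρ ⊗ σ^∨)^φ = 0`, and every extension of `σ` by `ρ` splits over `F`.

The question is the case `σ = ρ`, in which the condition on the weights is void.  Another case is
`σ = 1`: `H¹(F; ρ)^φ = 0` if `det ρ(φ)` is a root of unity.

Sketch of the proof.  The library theorem RandomWeilRigidity on `σ = ρ` provides the notion of a bad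
automorphism and the fact that the bad automorphisms form a null set.  Let `φ` be not bad.
* `ρ ⊕ σ` is not irreducible, but the socle of the Lie algebra `g` of its image is stable under `W`,
  so `g` acts semisimply; its centre vanishes as `φ` is not bad (`Ss`, `Core`).
* So some `z = ρ(f)⁻¹ ρ(φ)^m` commutes with the image of `W`; by Schur its components `z₁`, `z₂` on
  `ρ` and `σ` generate fields over `ℚ_p`, in general different ones.  The eigenvalues of
  `y ↦ z₁ y z₂⁻¹` on a stable `ℚ_p`-space of homomorphisms are quotients `α / β` of a conjugate of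
  `z₁` and a conjugate of `z₂` in a normal extension; the weights being equal, the norm of `α / β`
  is a root of unity, and so is the determinant on every such subspace (`Det`).
* If an invariant class does not vanish on the kernel of `ρ ⊕ σ`, the span of its values there is
  such a subspace, and `φ` is bad (`Abs`); otherwise Whitehead's lemma applies.
-/

open MeasureTheory

namespace Pool.Agent.Results.MP_dd16b7_nt.PurityForPairs

open Pool.Agent.Helper156.RWF Pool.Agent.KS6_3.RX

/-- Sanity check: free pro-`p` groups of every finite rank exist. -/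
theorem exists_free (p d : ℕ) [Fact p.Prime] :
    ∃ (F : Type) (_ : Group F) (_ : TopologicalSpace F) (_ : IsTopologicalGroup F)
      (_ : CompactSpace F) (_ : T2Space F) (_ : TotallyDisconnectedSpace F) (x : Fin d → F),
      IsFreeProP p d F x :=
  J14314.exists_freeProP p d

variable {F : Type} [Group F] [TopologicalSpace F] [IsTopologicalGroup F] [CompactSpace F]
  [T2Space F] [TotallyDisconnectedSpace F]

/-- Sanity check: `Aut F` carries a normalised Haar measure. -/
theorem exists_normalised_haar {p d : ℕ} [Fact p.Prime] {x : Fin d → F}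
    (h : IsFreeProP p d F x) :
    ∃ μ : Measure (F ≃ₜ* F), μ.IsHaarMeasure ∧ IsProbabilityMeasure μ :=
  J14313.exists_haar (J13547.dense_basis h)

/-- Sanity check: the Weil group is a topological group. -/
theorem weil_topologicalGroup (φ : F ≃ₜ* F) : IsTopologicalGroup (WeilGroup φ) :=
  J14436.weil_isTopologicalGroup φ

/-- Sanity check: `F` is embedded as an open subgroup of the Weil group. -/
theorem weil_open (φ : F ≃ₜ* F) : Topology.IsOpenEmbedding (inF φ) :=
  J14436.weil_open_F φ

/-- Sanity check: the generator acts on `F` by `φ`. -/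
theorem weil_conj (φ : F ≃ₜ* F) (x : F) : frob φ * inF φ x * (frob φ)⁻¹ = inF φ (φ x) :=
  J14436.weil_frob_conj φ x

/-- Sanity check: every representation has the same weight as itself. -/
theorem sameWeight_self {L : Type} [Field L] {φ : F ≃ₜ* F} {n : ℕ}
    (ρ : WeilGroup φ →* GL (Fin n) L) : SameWeight ρ ρ :=
  ⟨1, le_rfl, rfl⟩

/-- **Purity for random Weil groups.**  Let `F` be a free pro-`p` group of finite rank and `μ` the
normalised Haar measure of `Aut F`.  For `μ`-almost every `φ`:
(1) `H¹(F; ρ ⊗ σ^∨)^φ = 0` for all continuous irreducible representations `ρ`, `σ` of `F ⋊ ⟨φ⟩`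
over a finite extension of `ℚ_p` which have the same weight;
(2) every extension of `σ` by `ρ` for such `ρ`, `σ` splits over `F`;
(3) in particular `H¹(F; ρ ⊗ ρ^∨)^φ = 0` for every continuous irreducible `ρ` (the question). -/
theorem result {p d : ℕ} [Fact p.Prime] {x : Fin d → F} (h : IsFreeProP p d F x)
    (μ : Measure (F ≃ₜ* F)) [μ.IsHaarMeasure] [IsProbabilityMeasure μ] :
    ∀ᵐ φ ∂μ, PureWeil p φ ∧ SplitWeil p φ ∧ Rigid p φ := by
  filter_upwards [J13583.typ_ae h μ] with φ hφ
  have hx := J13547.dense_basis h
  refine ⟨?_, ?_, ?_⟩
  · intro L _ _ _ n m ρ σ hp c hc hcoc hinv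
    exact pure_of_not_bad hx φ hφ ρ hp.cont_left hp.irred_left σ hp.cont_right hp.irred_right
      hp.weight c hc hcoc hinv
  · intro L _ _ _ n m ρ σ hp τ hτ u hb
    exact ext_split hx φ hφ ρ hp.cont_left hp.irred_left σ hp.cont_right hp.irred_right
      hp.weight τ hτ u hb
  · exact J14315.rigid_of_not_bad hx φ hφ

end Pool.Agent.Results.MP_dd16b7_nt.PurityForPairs
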